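import Pool.Agent.H37F.M1
import Pool.Agent.H6T.Lab2

/-!
# Packages of the components of `G - c`

From the induction hypothesis and the lemma on labels (`LabP`) we get independent sets `I y` in the
components with all their properties.
-/

set_option autoImplicit false

namespace Pool.Agent.H93L

open List Pool.Agent.TF82 Pool.Agent.TFC Pool.Agent.TFB Pool.Agent.EG31
  Pool.Agent.H18C Pool.Agent.H62P Pool.Agent.H6T.Lab

universe u

set_option linter.unusedSectionVars false
set_option linter.unusedVariables false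

variable {V : Type u} [DecidableEq V]

/-- the statement of the lemma on labels for one family -/
def LabP [Fintype V] (G : SimpleGraph V) [DecidableRel G.Adj] (W : Finset V) (b : ℕ)
    (F : List (List V)) : Prop :=
  ∀ J : Finset V, J ⊆ unc F → G.IsIndepSet (J : Set V) →
    (∀ x ∈ J, Good G (comp G F x) (Sp G W F (comp G F x)) x) →
    (∀ y ∈ unc F, ∀ v, Good G (comp G F y) (Sp G W F (comp G F y)) v →
      ∃ x ∈ J, x ∈ comp G F y) →
    ∀ y ∈ unc F, H72N.CWg G (comp G F y) (Sp G W F (comp G F y))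
      (b + (J \ comp G F y).card + (W \ comp G F y).card)

/-- the independent sets of the components -/
structure Parts [Fintype V] (G : SimpleGraph V) [DecidableRel G.Adj] (W : Finset V) (b f : ℕ)
    (c : List V) (R : Finset V) (I : V → Finset V) (bb : V → ℕ) : Prop where
  kb : ∀ y ∈ R, (comp G [c] y \ W).Nonempty →
    Kb G (comp G [c] y) (Sp G W [c] (comp G [c] y)) (bb y)
  pkg : ∀ y ∈ R, (comp G [c] y \ W).Nonempty →
    Pkg G (comp G [c] y) (Sp G W [c] (comp G [c] y)) (bb y) (I y).card (I y)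
  pos : ∀ y ∈ R, (comp G [c] y \ W).Nonempty → (I y).Nonempty
  emp : ∀ y ∈ R, ¬ (comp G [c] y \ W).Nonempty → I y = ∅
  bbd : ∀ y ∈ R, bb y = b + ∑ j ∈ R.erase y, (I j).card + (W \ comp G [c] y).card
  tot : f ≤ 1 + ∑ y ∈ R, (I y).card

theorem pend_XX [Fintype V] {G : SimpleGraph V} {W : Finset V} {L : List (List V)} {y : V}
    (hy : y ∈ unc L) : ∀ x ∈ XX G W L (comp G L y), H37F.Pend G L y x := by
  intro x hx
  obtain ⟨h1, h2, h3, u, hu, hux, hu1⟩ := mem_XX.1 hx
  exact ⟨u, mem_att.2 ⟨hu, x, (mem_comp.1 h1).2, hux⟩, hux, hu1⟩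

theorem XX_sub [Fintype V] {G : SimpleGraph V} {W : Finset V} {L : List (List V)} {y : V} :
    XX G W L (comp G L y) ⊆ comp G L y := fun x hx => (mem_XX.1 hx).1

/-- from surplus at the non-cut vertices to the class -/
theorem kb_of_cwg {G : SimpleGraph V} [DecidableRel G.Adj] {H S : Finset V} {b : ℕ}
    (h0 : Kb G H S 0) (h : H72N.CWg G H S b) : Kb G H S b :=
  ⟨h0.sub, h0.con, h0.ne, h0.cw, fun I hI hi v hv hg => h I hI hi v hv hg.nc⟩

theorem sdiff_card_biUnion [Fintype V] {G : SimpleGraph V} {L : List (List V)} {R : Finset V}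
    (hR : Reps G L R) {I : V → Finset V} (hI : ∀ y ∈ R, I y ⊆ comp G L y) {y : V} (hy : y ∈ R) :
    (R.biUnion I \ comp G L y).card = ∑ j ∈ R.erase y, (I j).card := by
  have h1 : R.biUnion I \ comp G L y = (R.erase y).biUnion I := by
    ext x
    rw [Finset.mem_sdiff, Finset.mem_biUnion, Finset.mem_biUnion]
    constructor
    · rintro ⟨⟨j, hj, hx⟩, hxy⟩
      refine ⟨j, Finset.mem_erase.2 ⟨?_, hj⟩, hx⟩
      rintro rfl
      exact hxy (hI _ hj hx)
    · rintro ⟨j, hj, hx⟩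
      obtain ⟨hjy, hjR⟩ := Finset.mem_erase.1 hj
      exact ⟨⟨j, hjR, hx⟩, fun hxy => Finset.disjoint_left.1 (hR.dis j hjR y hy hjy)
        (hI j hjR hx) hxy⟩
  rw [h1]
  refine Finset.card_biUnion (fun j hj j' hj' h => ?_)
  exact hR.pwd hI (Finset.mem_coe.2 (Finset.mem_of_mem_erase hj))
    (Finset.mem_coe.2 (Finset.mem_of_mem_erase hj')) h

theorem exists_parts [Fintype V] {G : SimpleGraph V} [DecidableRel G.Adj] {W : Finset V}
    {b f : ℕ} (hK : Kb G Finset.univ W b) (hf : MinCov G Finset.univ W f)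
    (hIH : IHP G (Fintype.card V)) {c : List V}
    (hM : IsMax G 1 [c]) {R : Finset V} (hR : Reps G [c] R) (hlab : LabP G W b [c]) :
    ∃ (I : V → Finset V) (bb : V → ℕ), Parts G W b f c R I bb := by
  classical
  -- the components are small
  have hsmall : ∀ y, (comp G [c] y).card < Fintype.card V := by
    intro y
    rw [← Finset.card_univ]
    apply Finset.card_lt_card
    refine ⟨Finset.subset_univ _, fun hcon => ?_⟩
    have hc : CycL G c := hM.fam.cyc c (by simp)
    obtain ⟨w, hw⟩ := List.exists_mem_of_length_pos (l := c) (by have := hc.2.1; omega)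
    exact mem_unc.1 (mem_comp.1 (hcon (Finset.mem_univ w))).1 (by simpa using hw)
  -- surplus `0`
  have h0 : ∀ y ∈ R, (comp G [c] y \ W).Nonempty →
      Kb G (comp G [c] y) (Sp G W [c] (comp G [c] y)) 0 := by
    intro y hy hne
    exact H37F.kb_comp hK.cw hM (hR.sub hy) XX_sub (pend_XX (hR.sub hy)) hne
  have hmc : ∀ y, ∃ m, y ∈ R → (comp G [c] y \ W).Nonempty →
      MinCov G (comp G [c] y) (Sp G W [c] (comp G [c] y)) m := by
    intro y
    by_cases hy : y ∈ R
    · by_cases hne : (comp G [c] y \ W).Nonempty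
      · obtain ⟨m, hm⟩ := (h0 y hy hne).cov
        exact ⟨m, fun _ _ => hm⟩
      · exact ⟨0, fun _ h => absurd h hne⟩
    · exact ⟨0, fun h => absurd h hy⟩
  choose m hm using hmc
  -- first packages
  have hI0 : ∀ y, ∃ J : Finset V, (y ∈ R → (comp G [c] y \ W).Nonempty →
      Pkg G (comp G [c] y) (Sp G W [c] (comp G [c] y)) 0 (m y) J) ∧
      (¬ (y ∈ R ∧ (comp G [c] y \ W).Nonempty) → J = ∅) := by
    intro y
    by_cases hy : y ∈ R ∧ (comp G [c] y \ W).Nonempty
    · obtain ⟨J, hJ⟩ := hIH _ _ 0 (m y) (hsmall y) (h0 y hy.1 hy.2) (hm y hy.1 hy.2)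
      exact ⟨J, fun _ _ => hJ, fun h => absurd hy h⟩
    · exact ⟨∅, fun h1 h2 => absurd ⟨h1, h2⟩ hy, fun _ => rfl⟩
  choose I0 hI0 using hI0
  have hI0s : ∀ y ∈ R, I0 y ⊆ comp G [c] y := by
    intro y hy x hx
    by_cases hne : (comp G [c] y \ W).Nonempty
    · exact (((hI0 y).1 hy hne).good x hx).mem
    · rw [(hI0 y).2 (fun h => hne h.2)] at hx
      simp at hx
  have hJ1 : R.biUnion I0 ⊆ unc [c] := by
    intro x hx
    obtain ⟨y, hy, hxy⟩ := Finset.mem_biUnion.1 hx
    exact (mem_comp.1 (hI0s y hy hxy)).1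
  have hJ2 : G.IsIndepSet ((R.biUnion I0 : Finset V) : Set V) := by
    refine hR.indep hI0s ?_
    intro y hy
    by_cases hne : (comp G [c] y \ W).Nonempty
    · exact ((hI0 y).1 hy hne).ind
    · rw [(hI0 y).2 (fun h => hne h.2)]
      simp
  have hJ3 : ∀ x ∈ R.biUnion I0,
      Good G (comp G [c] x) (Sp G W [c] (comp G [c] x)) x := by
    intro x hx
    obtain ⟨y, hy, hxy⟩ := Finset.mem_biUnion.1 hx
    rw [comp_eq (hI0s y hy hxy)]
    by_cases hne : (comp G [c] y \ W).Nonempty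
    · exact ((hI0 y).1 hy hne).good x hxy
    · rw [(hI0 y).2 (fun h => hne h.2)] at hxy
      simp at hxy
  have hJ4 : ∀ y ∈ unc [c], ∀ v, Good G (comp G [c] y) (Sp G W [c] (comp G [c] y)) v →
      ∃ x ∈ R.biUnion I0, x ∈ comp G [c] y := by
    intro y hy v hv
    obtain ⟨y', hy', hyy⟩ := hR.cov y hy
    have he := comp_eq hyy
    rw [he] at hv ⊢
    have hne : (comp G [c] y' \ W).Nonempty := by
      refine ⟨v, Finset.mem_sdiff.2 ⟨hv.mem, fun hW => hv.nS ?_⟩⟩
      exact Finset.mem_union_left _ (Finset.mem_inter.2 ⟨hW, hv.mem⟩)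
    have hp := (hI0 y').1 hy' hne
    have hpos := (h0 y' hy' hne).pos (hm y' hy' hne)
    obtain ⟨x, hx⟩ : (I0 y').Nonempty := Finset.card_pos.1 (by rw [hp.card]; exact hpos)
    exact ⟨x, Finset.mem_biUnion.2 ⟨y', hy', hx⟩, hI0s y' hy' hx⟩
  have hlab' := hlab _ hJ1 hJ2 hJ3 hJ4
  set bb : V → ℕ := fun y => b + (R.biUnion I0 \ comp G [c] y).card + (W \ comp G [c] y).card
    with hbb
  have h1 : ∀ y ∈ R, (comp G [c] y \ W).Nonempty →
      Kb G (comp G [c] y) (Sp G W [c] (comp G [c] y)) (bb y) :=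
    fun y hy hne => kb_of_cwg (h0 y hy hne) (hlab' y (hR.sub hy))
  have hI1 : ∀ y, ∃ J : Finset V, (y ∈ R → (comp G [c] y \ W).Nonempty →
      Pkg G (comp G [c] y) (Sp G W [c] (comp G [c] y)) (bb y) (m y) J) ∧
      (¬ (y ∈ R ∧ (comp G [c] y \ W).Nonempty) → J = ∅) := by
    intro y
    by_cases hy : y ∈ R ∧ (comp G [c] y \ W).Nonempty
    · obtain ⟨J, hJ⟩ := hIH _ _ (bb y) (m y) (hsmall y) (h1 y hy.1 hy.2) (hm y hy.1 hy.2)
      exact ⟨J, fun _ _ => hJ, fun h => absurd hy h⟩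
    · exact ⟨∅, fun h1 h2 => absurd ⟨h1, h2⟩ hy, fun _ => rfl⟩
  choose I hI using hI1
  have hcard : ∀ y ∈ R, (I y).card = (I0 y).card := by
    intro y hy
    by_cases hne : (comp G [c] y \ W).Nonempty
    · rw [((hI y).1 hy hne).card, ((hI0 y).1 hy hne).card]
    · rw [(hI y).2 (fun h => hne h.2), (hI0 y).2 (fun h => hne h.2)]
  refine ⟨I, bb, h1, ?_, ?_, ?_, ?_, ?_⟩
  · intro y hy hne
    have hp := (hI y).1 hy hne
    rw [hp.card]
    exact hp
  · intro y hy hne
    have hp := (hI y).1 hy hne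
    exact Finset.card_pos.1 (by rw [hp.card]; exact (h1 y hy hne).pos (hm y hy hne))
  · intro y hy hne
    exact (hI y).2 (fun h => hne h.2)
  · intro y hy
    have h2 : (R.biUnion I0 \ comp G [c] y).card = ∑ j ∈ R.erase y, (I j).card := by
      rw [sdiff_card_biUnion hR hI0s hy]
      exact Finset.sum_congr rfl fun j hj => (hcard j (Finset.mem_of_mem_erase hj)).symm
    simp only [hbb, h2]
  · have h3 := hf.le (hR.cov_univ hM.fam (fun y => (I y).card) ?_)
    · simpa using h3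
    · intro y hy
      by_cases hne : (comp G [c] y \ W).Nonempty
      · have h4 := (hm y hy hne).1
        rw [((hI y).1 hy hne).card]
        exact (H37F.cov_comp_iff hK.cw hM (hR.sub hy) XX_sub (pend_XX (hR.sub hy)) _).1 h4
      · refine ⟨[], by simp, ⟨by simp, by simp⟩, by simp, ?_⟩
        intro x hx
        exfalso
        obtain ⟨h5, h6⟩ := Finset.mem_sdiff.1 hx
        exact hne ⟨x, Finset.mem_sdiff.2 ⟨h5, fun hW => h6 (Finset.mem_inter.2 ⟨hW, h5⟩)⟩⟩

namespace Parts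

variable [Fintype V] {G : SimpleGraph V} [DecidableRel G.Adj] {W : Finset V} {b f : ℕ}
  {c : List V} {R : Finset V} {I : V → Finset V} {bb : V → ℕ}

theorem ne_of_mem (h : Parts G W b f c R I bb) {y v : V} (hy : y ∈ R) (hv : v ∈ I y) :
    (comp G [c] y \ W).Nonempty := by
  by_contra hcon
  rw [h.emp y hy hcon] at hv
  simp at hv

theorem good (h : Parts G W b f c R I bb) {y v : V} (hy : y ∈ R) (hv : v ∈ I y) :
    Good G (comp G [c] y) (Sp G W [c] (comp G [c] y)) v :=
  (h.pkg y hy (h.ne_of_mem hy hv)).good v hv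

theorem sub (h : Parts G W b f c R I bb) : ∀ y ∈ R, I y ⊆ comp G [c] y :=
  fun y hy v hv => (h.good hy hv).mem

theorem nW (h : Parts G W b f c R I bb) {y v : V} (hy : y ∈ R) (hv : v ∈ I y) : v ∉ W :=
  fun hW => (h.good hy hv).nS (Finset.mem_union_left _ (Finset.mem_inter.2
    ⟨hW, h.sub y hy hv⟩))

theorem subW (h : Parts G W b f c R I bb) : ∀ y ∈ R, I y ⊆ comp G [c] y \ W :=
  fun y hy v hv => Finset.mem_sdiff.2 ⟨h.sub y hy hv, h.nW hy hv⟩

theorem ind (h : Parts G W b f c R I bb) : ∀ y ∈ R, G.IsIndepSet (I y : Set V) := by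
  intro y hy
  by_cases hne : (comp G [c] y \ W).Nonempty
  · exact (h.pkg y hy hne).ind
  · rw [h.emp y hy hne]
    simp

theorem clean (h : Parts G W b f c R I bb) : ∀ y ∈ R, ∀ v ∈ I y, ∀ w ∈ c, G.Adj v w →
    ∃ x ∈ comp G [c] y, x ≠ v ∧ G.Adj x w := by
  intro y hy v hv w hw hadj
  by_contra hcon
  push Not at hcon
  have hg := h.good hy hv
  refine hg.nS (Finset.mem_union_right _ (mem_XX.2 ⟨hg.mem, h.nW hy hv, hg.nc, w, by simpa using hw,
    hadj.symm, ?_⟩))
  intro x hx hwx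
  by_contra hne
  exact hcon x hx hne hwx.symm

theorem WS (h : Parts G W b f c R I bb) : ∀ y ∈ R,
    W ∩ comp G [c] y ⊆ Sp G W [c] (comp G [c] y) :=
  fun y hy => Finset.subset_union_left

theorem sur (h : Parts G W b f c R I bb) : ∀ y ∈ R, (I y).Nonempty →
    b + ∑ j ∈ R.erase y, (I j).card + (W \ comp G [c] y).card ≤ bb y :=
  fun y hy _ => (h.bbd y hy).ge

theorem p1 (h : Parts G W b f c R I bb) : ∀ y ∈ R, (I y).Nonempty →
    H62P.P1 G (comp G [c] y) (Sp G W [c] (comp G [c] y)) (bb y) (I y) :=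
  fun y hy hne => (h.pkg y hy (h.ne_of_mem hy hne.choose_spec)).p1

theorem p2 (h : Parts G W b f c R I bb) : ∀ y ∈ R, (I y).Nonempty →
    H62P.P2 G (comp G [c] y) (Sp G W [c] (comp G [c] y)) (bb y) (I y) :=
  fun y hy hne => (h.pkg y hy (h.ne_of_mem hy hne.choose_spec)).p2

end Parts

end Pool.Agent.H93L
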