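import Pool.Agent.H93L.Parts
import Pool.Agent.H82M.DatG
import Pool.Agent.H62P.MainFin
import Pool.Agent.H35P.Sum
import Pool.Agent.H37F.Gam
import Pool.Agent.H40C.One

/-!
# The 2-connected step from the lemma on labels
-/

set_option autoImplicit false

namespace Pool.Agent.H93L

open List Pool.Agent.TF82 Pool.Agent.TFC Pool.Agent.TFB Pool.Agent.EG31
  Pool.Agent.H18C Pool.Agent.H62P Pool.Agent.H6T.Lab

universe u

set_option linter.unusedSectionVars false
set_option linter.unusedVariables false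

variable {V : Type u} [DecidableEq V]

/-- the 2-connected step for more than one cycle -/
theorem main_two [Fintype V] {G : SimpleGraph V} [DecidableRel G.Adj] {W : Finset V}
    {b f : ℕ} (hK : Kb G Finset.univ W b) (hf : MinCov G Finset.univ W f)
    (h2 : Conn2 G Finset.univ) (hIH : IHP G (Fintype.card V)) (hf2 : 2 ≤ f)
    {c : List V} (hM : IsMax G 1 [c]) (hlab : LabP G W b [c]) :
    ∃ I₀, Pkg G Finset.univ W b f I₀ := by
  classical
  obtain ⟨R, hR⟩ := H62P.exists_reps G [c]
  obtain ⟨I, bb, hP⟩ := exists_parts hK hf hIH hM hR hlab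
  set K : Finset V := R.filter (fun y => (comp G [c] y \ W).Nonempty) with hKdef
  have hKR : K ⊆ R := Finset.filter_subset _ _
  have hKne : ∀ y ∈ K, (comp G [c] y \ W).Nonempty := fun y hy => (Finset.mem_filter.1 hy).2
  have hI0 : ∀ y ∈ R, y ∉ K → I y = ∅ := fun y hy hyK =>
    hP.emp y hy (fun h => hyK (Finset.mem_filter.2 ⟨hy, h⟩))
  have hfl : ([c] : List (List V)).flatten = c := by simp
  have hL : Fam G [c] := hM.fam
  have hc : CycL G c := hL.cyc c (by simp)
  have hM' : IsMax G ([c] : List (List V)).length [c] := by simpa using hM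
  -- some component has a mandatory vertex
  have hKn : K.Nonempty := by
    by_contra hcon
    rw [Finset.not_nonempty_iff_eq_empty] at hcon
    have h1 : ∑ y ∈ R, (I y).card = 0 := Finset.sum_eq_zero fun y hy => by
      rw [hI0 y hy (by rw [hcon]; simp)]
      simp
    have := hP.tot
    omega
  have hcu : ∀ y, comp G [c] y ⊆ unc [c] := fun y x hx => (mem_comp.1 hx).1
  have hWc : ∀ y, W ∩ c.toFinset ⊆ W \ comp G [c] y := by
    intro y x hx
    obtain ⟨hx1, hx2⟩ := Finset.mem_inter.1 hx
    refine Finset.mem_sdiff.2 ⟨hx1, fun h => ?_⟩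
    exact mem_unc.1 (hcu y h) (by rw [hfl]; exact List.mem_toFinset.1 hx2)
  have hpos : ∀ y ∈ K, 1 ≤ (I y).card := fun y hy =>
    Finset.card_pos.2 (hP.pos y (hKR hy) (hKne y hy))
  have hsumR : ∀ y ∈ R, ∑ j ∈ R, (I j).card = (I y).card + ∑ j ∈ R.erase y, (I j).card :=
    fun y hy => (Finset.add_sum_erase R (fun j => (I j).card) hy).symm
  have hsumK : ∀ y ∈ K, ∑ j ∈ K.erase y, (I j).card ≤ ∑ j ∈ R.erase y, (I j).card :=
    fun y hy => Finset.sum_le_sum_of_subset (Finset.erase_subset_erase y hKR)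
  have hKsum : ∀ y ∈ K, K.card ≤ ∑ j ∈ K.erase y, (I j).card + 1 := by
    intro y hy
    have h1 : (K.erase y).card ≤ ∑ j ∈ K.erase y, (I j).card := by
      rw [Finset.card_eq_sum_ones]
      exact Finset.sum_le_sum (fun z hz => hpos z (Finset.mem_of_mem_erase hz))
    rw [Finset.card_erase_of_mem hy] at h1
    omega
  have hσ : ∀ y, (W ∩ c.toFinset).card ≤ (W \ comp G [c] y).card := fun y =>
    Finset.card_le_card (hWc y)
  -- the length of the cycle
  obtain ⟨y₀, hy₀⟩ := hKn
  have hgs := H37F.gam_step (b := b) (f := f) hM h2 (hcu y₀)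
    (hP.pkg y₀ (hKR hy₀) (hKne y₀ hy₀)) (by
      have h1 := hP.tot
      have h3 := hsumR y₀ (hKR hy₀)
      have h4 := hP.bbd y₀ (hKR hy₀)
      omega)
  have hgs' := H37F.gam_step (b := bb y₀ + 1) (f := (I y₀).card) hM h2 (hcu y₀)
    (hP.pkg y₀ (hKR hy₀) (hKne y₀ hy₀)) (by omega)
  have hclen : c.toFinset.card = c.length := List.toFinset_card_of_nodup hc.1
  -- the count
  have hS : H82M.Sit G W [c] K (fun y => (I y).card) bb I := by
    refine ⟨hM', by simp, h2, fun y hy => hR.sub (hKR hy), ?_, hpos, ?_, ?_, ?_, ?_⟩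
    · intro y hy y' hy' hne h
      have h1 : y' ∈ comp G [c] y' := self_comp (hR.sub (hKR hy'))
      exact Finset.disjoint_left.1 (hR.dis y (hKR hy) y' (hKR hy') hne) h h1
    · exact fun y hy => hP.pkg y (hKR hy) (hKne y hy)
    · exact fun y hy => hP.kb y (hKR hy) (hKne y hy)
    · intro y hy
      rw [hfl]
      have h1 := hP.bbd y (hKR hy)
      have h3 := hsumK y hy
      have h4 := hσ y
      omega
    · rw [hfl, hclen]
      have h1 := hgs'.1
      have h3 := hP.bbd y₀ (hKR hy₀)
      have h4 := hsumK y₀ hy₀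
      have h5 := hKsum y₀ hy₀
      have h6 := hσ y₀
      have h7 := hpos y₀ hy₀
      omega
  obtain ⟨p, hpC, hpW, hpstr, hcount⟩ := hS.dat.count ⟨y₀, hy₀⟩
  have hpc : p ∈ c := by
    have : p ∈ ([c] : List (List V)).flatten := List.mem_toFinset.1 hpC
    rwa [hfl] at this
  have hnp : ∀ y ∈ K, ∀ x ∈ comp G [c] y, ∀ x' ∈ comp G [c] y, G.Adj p x → G.Adj p x' →
      Near G (comp G [c] y) (Sp G W [c] (comp G [c] y)) x x' := by
    intro y hy x hx x' hx' hpx hpx'
    by_contra hcon
    exact hpstr y hy ⟨by rw [hfl]; exact hpc, x, hx, x', hx', hpx, hpx', hcon⟩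
  have hsum := H35P.sum_ineq (G := G) (c := c) (R := R) (K := K)
    (S' := fun y => Sp G W [c] (comp G [c] y)) (I := I) hL hR hKR hI0
    (fun y hy => (hP.pkg y (hKR hy) (hKne y hy)).near) hnp
    (T := hS.dat.T) (nn := hS.dat.nn p)
    (by
      intro y hy
      rw [H35P.double (hP.sub y (hKR hy))]
      unfold H88C.Dat.T
      refine le_of_eq ?_
      show _ = ∑ v ∈ ([c] : List (List V)).flatten.toFinset,
        ((I y).filter (fun u => G.Adj v u)).card
      rw [hfl]
      refine Finset.sum_congr rfl fun w hw => ?_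
      congr 1
      ext v
      rw [Finset.mem_filter, Finset.mem_filter, G.adj_comm])
    hpc
    (H35P.nn_add (G := G) hc.1 hpc (N := hS.dat.nn p)
      (F := c.toFinset.filter (fun z => z ≠ p ∧ ¬ G.Adj p z)) (by
        intro z
        rw [Finset.mem_filter, List.mem_toFinset]) (by
        unfold H88C.Dat.nn
        refine Finset.card_le_card ?_
        intro z hz
        have hz' := Finset.mem_filter.1 hz
        refine Finset.mem_filter.2 ⟨?_, hz'.2⟩
        have : z ∈ ([c] : List (List V)).flatten.toFinset := hz'.1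
        rwa [hfl] at this))
    hcount
  have hpI : ∀ y ∈ R, ∀ v ∈ I y, ¬ G.Adj p v := by
    intro y hy v hv
    by_cases hyK : y ∈ K
    · exact H35P.not_adj_members (fun v hv => hP.good hy hv)
        (fun v hv hadj => hP.clean y hy v hv p hpc hadj) (hnp y hyK) v hv
    · rw [hI0 y hy hyK] at hv
      simp at hv
  rw [hfl] at hsum
  exact main_fin hK h2 hM hR (S' := fun y => Sp G W [c] (comp G [c] y)) hP.subW hP.ind hP.clean
    hP.WS hP.sur hP.p1 hP.p2 hgs.1 hgs.2 hpc hpW hpI hP.tot hsum

/-- the lemma on labels for all graphs -/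
def LabAll : Prop :=
  ∀ (V : Type u) [Fintype V] [DecidableEq V] (G : SimpleGraph V) [DecidableRel G.Adj]
    (W : Finset V) (b : ℕ) (c : List V), CWb G Finset.univ W b → Conn2 G Finset.univ →
    IsMax G 1 [c] → LabP G W b [c]

/-- the 2-connected step -/
theorem mainStepP_of_lab (hlab : LabAll.{u}) : MainStepP.{u} := by
  intro V _ _ G _ W b f hK hf h2 hIH
  have h1 := hK.pos hf
  by_cases hf1 : f = 1
  · subst hf1
    exact H40C.pkg_one hK h2
  · obtain ⟨c, hM⟩ := exists_main_cycle hK.cw hK.ne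
    refine main_two hK hf h2 hIH (by omega) hM (hlab V G W b c ?_ h2 hM)
    intro J hJ hi v hv
    have hv' := Finset.mem_sdiff.1 (hJ hv)
    exact hK.sur J hJ hi v hv ⟨hv'.1, hv'.2, h2 v hv'.1⟩

end Pool.Agent.H93L
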