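import Pool.Agent.H6T.OneP

/-! Links between hubs of a component, from depths on the members of the independent set:
`(F1)` and `(F2)` of the depth package. -/

namespace Pool.Agent.H93L

open List Pool.Agent.TF82 Pool.Agent.TFC Pool.Agent.H6T

universe u

set_option linter.unusedSectionVars false
set_option linter.unusedVariables false

variable {V : Type u} [DecidableEq V]

theorem Lk.symm' {G : SimpleGraph V} {D : List V} {L : ℕ} {s t : V} (h : Lk G D L s t) :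
    Lk G D L t s := by
  obtain ⟨Q, x1, x2, hQ, hn, hD, hL, hs, ht⟩ := h
  exact ⟨Q.reverse, x2, x1, hQ.rev, List.nodup_reverse.2 hn,
    fun z hz => hD z (List.mem_reverse.1 hz), by simpa using hL, ht, hs⟩

theorem Lk.mono' {G : SimpleGraph V} {D : List V} {L L' : ℕ} {s t : V} (h : Lk G D L s t)
    (hL : L' ≤ L) : Lk G D L' s t := by
  obtain ⟨Q, x1, x2, hQ, hn, hD, hL1, hs, ht⟩ := h
  exact ⟨Q, x1, x2, hQ, hn, hD, hL.trans hL1, hs, ht⟩

/-- a member of least depth -/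
theorem exists_least {I N : Finset V} {dep : V → ℕ} {m : ℕ} (hNI : N ⊆ I) (hI : I.card ≤ m)
    (hD : ∀ a, 1 ≤ a → (I.filter (fun v => a ≤ dep v)).card ≤ m + 1 - a) (hN : N.Nonempty) :
    ∃ v ∈ N, dep v + N.card ≤ m + 1 := by
  obtain ⟨v, hv, hmin⟩ := N.exists_min_image dep hN
  refine ⟨v, hv, ?_⟩
  have h1 : 1 ≤ N.card := Finset.card_pos.2 hN
  rcases Nat.eq_zero_or_pos (dep v) with h0 | h0
  · have := (Finset.card_le_card hNI).trans hI
    omega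
  · have h2 : N ⊆ I.filter (fun u => dep v ≤ dep u) := by
      intro u hu
      exact Finset.mem_filter.2 ⟨hNI hu, hmin u hu⟩
    have h3 := (Finset.card_le_card h2).trans (hD _ h0)
    omega

/-- (F1) -/
theorem link1 {G : SimpleGraph V} [DecidableRel G.Adj] {c : List V} {Z I : Finset V}
    {dep : V → ℕ} {kap m b : ℕ} (hcZ : ∀ z ∈ Z, z ∉ c) (hIZ : I ⊆ Z) (hI : I.card ≤ m)
    (hk : m + b ≤ kap)
    (hD : ∀ a, 1 ≤ a → (I.filter (fun v => a ≤ dep v)).card ≤ m + 1 - a)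
    (hb : ∀ v ∈ I, ∀ x ∈ Z, x ≠ v → ∃ Q, Seg G Q v x ∧ Q.Nodup ∧ (∀ z ∈ Q, z ∈ Z) ∧
      kap + 2 ≤ Q.length + dep v)
    {w y : V} (hw : ∀ v ∈ I, G.Adj y v → ∃ x ∈ Z, x ≠ v ∧ G.Adj w x)
    (hy : (I.filter (fun v => G.Adj y v)).Nonempty) :
    Lk G c (b + 1 + (I.filter (fun v => G.Adj y v)).card) w y := by
  obtain ⟨v, hv, hdep⟩ := exists_least (Finset.filter_subset _ _) hI hD hy
  obtain ⟨hvI, hyv⟩ := Finset.mem_filter.1 hv
  obtain ⟨x, hxZ, hxv, hwx⟩ := hw v hvI hyv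
  obtain ⟨Q, hQ, hn, hQZ, hlen⟩ := hb v hvI x hxZ hxv
  refine ⟨Q.reverse, x, v, hQ.rev, List.nodup_reverse.2 hn,
    fun z hz => hcZ z (hQZ z (List.mem_reverse.1 hz)), ?_, hwx, hyv⟩
  rw [List.length_reverse]
  omega

/-- (F2) -/
theorem link2 {G : SimpleGraph V} [DecidableRel G.Adj] {c : List V} {Z I : Finset V}
    {dep : V → ℕ} {kap m b : ℕ} (hcZ : ∀ z ∈ Z, z ∉ c) (hIZ : I ⊆ Z) (hI : I.card ≤ m)
    (hk : m + b ≤ kap)
    (hD : ∀ a, 1 ≤ a → (I.filter (fun v => a ≤ dep v)).card ≤ m + 1 - a)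
    (ha : ∀ v ∈ I, ∀ v' ∈ I, v ≠ v' → ∃ Q, Seg G Q v v' ∧ Q.Nodup ∧ (∀ z ∈ Q, z ∈ Z) ∧
      2 * kap + 3 ≤ Q.length + dep v + dep v')
    {w y v1 v2 : V} (h1 : v1 ∈ I) (h2 : v2 ∈ I) (h12 : v1 ≠ v2) (hw1 : G.Adj w v1)
    (hy2 : G.Adj y v2) :
    Lk G c (2 * b + (I.filter (fun v => G.Adj w v)).card +
      (I.filter (fun v => G.Adj y v)).card) w y := by
  set Nw := I.filter (fun v => G.Adj w v) with hNw
  set Ny := I.filter (fun v => G.Adj y v) with hNy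
  have hwI : Nw ⊆ I := Finset.filter_subset _ _
  have hyI : Ny ⊆ I := Finset.filter_subset _ _
  have m1 : v1 ∈ Nw := Finset.mem_filter.2 ⟨h1, hw1⟩
  have m2 : v2 ∈ Ny := Finset.mem_filter.2 ⟨h2, hy2⟩
  -- two different members with the sum of the depths bounded
  have key : ∃ a ∈ Nw, ∃ c' ∈ Ny, a ≠ c' ∧ dep a + dep c' + Nw.card + Ny.card ≤ 2 * m + 3 := by
    obtain ⟨a, haN, had⟩ := exists_least hwI hI hD ⟨v1, m1⟩
    obtain ⟨c', hcN, hcd⟩ := exists_least hyI hI hD ⟨v2, m2⟩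
    by_cases hac : a = c'
    · subst hac
      by_cases h1a : v1 = a
      · -- then `v2 ≠ a`
        have h2a : v2 ≠ a := fun h => h12 (h1a.trans h.symm)
        have hne : (Ny.erase a).Nonempty := ⟨v2, Finset.mem_erase.2 ⟨h2a, m2⟩⟩
        obtain ⟨c2, hc2, hc2d⟩ := exists_least ((Finset.erase_subset _ _).trans hyI) hI hD hne
        have hcard := Finset.card_erase_of_mem hcN
        have hpos : 1 ≤ Ny.card := Finset.card_pos.2 ⟨_, hcN⟩
        exact ⟨a, haN, c2, (Finset.mem_erase.1 hc2).2, (Finset.mem_erase.1 hc2).1.symm, by omega⟩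
      · have hne : (Nw.erase a).Nonempty := ⟨v1, Finset.mem_erase.2 ⟨h1a, m1⟩⟩
        obtain ⟨c2, hc2, hc2d⟩ := exists_least ((Finset.erase_subset _ _).trans hwI) hI hD hne
        have hcard := Finset.card_erase_of_mem haN
        have hpos : 1 ≤ Nw.card := Finset.card_pos.2 ⟨_, haN⟩
        exact ⟨c2, (Finset.mem_erase.1 hc2).2, a, hcN, (Finset.mem_erase.1 hc2).1, by omega⟩
    · exact ⟨a, haN, c', hcN, hac, by omega⟩
  obtain ⟨a, haN, c', hcN, hac, hsum⟩ := key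
  obtain ⟨Q, hQ, hn, hQZ, hlen⟩ := ha a (hwI haN) c' (hyI hcN) hac
  refine ⟨Q, a, c', hQ, hn, fun z hz => hcZ z (hQZ z hz), by omega,
    (Finset.mem_filter.1 haN).2, (Finset.mem_filter.1 hcN).2⟩

end Pool.Agent.H93L
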