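import Pool.Agent.H93L.Links

/-! `(F1)` and `(F2)` from the package `(P1)`, `(P2)` (no depths). -/

namespace Pool.Agent.H93L

open List Pool.Agent.TF82 Pool.Agent.TFC Pool.Agent.H6T

universe u

set_option linter.unusedSectionVars false
set_option linter.unusedVariables false

variable {V : Type u} [DecidableEq V]

/-- (F1) from (P1) -/
theorem link1P {G : SimpleGraph V} [DecidableRel G.Adj] {c : List V} {Z I : Finset V} {b s : ℕ}
    (hcZ : ∀ z ∈ Z, z ∉ c)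
    (h1 : ∀ M : Finset V, M ⊆ I → M.Nonempty → ∃ v ∈ M, ∀ x ∈ Z, x ≠ v →
      ∃ Q, Seg G Q v x ∧ Q.Nodup ∧ (∀ z ∈ Q, z ∈ Z) ∧ b + 1 + M.card + s ≤ Q.length)
    {w y : V} (hw : ∀ v ∈ I, G.Adj y v → ∃ x ∈ Z, x ≠ v ∧ G.Adj w x)
    (hy : (I.filter (fun v => G.Adj y v)).Nonempty) :
    Lk G c (b + 1 + (I.filter (fun v => G.Adj y v)).card + s) w y := by
  obtain ⟨v, hv, hvx⟩ := h1 _ (Finset.filter_subset _ _) hy
  obtain ⟨hvI, hyv⟩ := Finset.mem_filter.1 hv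
  obtain ⟨x, hxZ, hxv, hwx⟩ := hw v hvI hyv
  obtain ⟨Q, hQ, hn, hQZ, hlen⟩ := hvx x hxZ hxv
  exact ⟨Q.reverse, x, v, hQ.rev, List.nodup_reverse.2 hn,
    fun z hz => hcZ z (hQZ z (List.mem_reverse.1 hz)), by rw [List.length_reverse]; exact hlen,
    hwx, hyv⟩

/-- (F2) from (P2): `w` and `y` see two different members -/
theorem link2P {G : SimpleGraph V} [DecidableRel G.Adj] {c : List V} {Z I : Finset V} {b s : ℕ}
    (hcZ : ∀ z ∈ Z, z ∉ c)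
    (h2 : ∀ M M' : Finset V, M ⊆ I → M' ⊆ I → M.Nonempty → M'.Nonempty →
      (M = M' → M.card ≠ 1) → ∃ v ∈ M, ∃ v' ∈ M', v ≠ v' ∧
      ∃ Q, Seg G Q v v' ∧ Q.Nodup ∧ (∀ z ∈ Q, z ∈ Z) ∧
        2 * b + M.card + M'.card + 2 * s ≤ Q.length)
    {w y v1 v2 : V} (hv1 : v1 ∈ I) (hv2 : v2 ∈ I) (h12 : v1 ≠ v2) (hw1 : G.Adj w v1)
    (hy2 : G.Adj y v2) :
    Lk G c (2 * b + (I.filter (fun v => G.Adj w v)).card +
      (I.filter (fun v => G.Adj y v)).card + 2 * s) w y := by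
  have m1 : v1 ∈ I.filter (fun v => G.Adj w v) := Finset.mem_filter.2 ⟨hv1, hw1⟩
  have m2 : v2 ∈ I.filter (fun v => G.Adj y v) := Finset.mem_filter.2 ⟨hv2, hy2⟩
  obtain ⟨v, hv, v', hv', hne, Q, hQ, hn, hQZ, hlen⟩ := h2 _ _ (Finset.filter_subset _ _)
    (Finset.filter_subset _ _) ⟨_, m1⟩ ⟨_, m2⟩ (by
      intro h hc
      obtain ⟨a, ha⟩ := Finset.card_eq_one.1 hc
      have q1 : v1 = a := by simpa [ha] using m1
      have q2 : v2 = a := by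
        rw [← h, ha] at m2
        simpa using m2
      exact h12 (q1.trans q2.symm))
  exact ⟨Q, v, v', hQ, hn, fun z hz => hcZ z (hQZ z hz), hlen, (Finset.mem_filter.1 hv).2,
    (Finset.mem_filter.1 hv').2⟩

end Pool.Agent.H93L
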