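import Pool.Agent.H93L.Glue
import Pool.Agent.H6T.Lab4

/-!
# The 2-connected step
-/

set_option autoImplicit false

namespace Pool.Agent.H93L

open Pool.Agent.TFC Pool.Agent.H18C Pool.Agent.H62P

universe u

theorem labAll : LabAll.{u} := by
  intro V _ _ G _ W b c hC h2 hM J hJU hJ hJg hJr
  exact H6T.Lab.lab hC h2 (by simpa using hM) (by simp) hJU hJ hJg hJr

/-- **the 2-connected step** -/
theorem mainStepP : MainStepP.{u} := mainStepP_of_lab labAll

end Pool.Agent.H93L
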